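import Pool.Agent.W_448ev_h24.JkC

/-!
MP_448cb3_co, G2: near laws of the last level.  helper61.

The junk lemma with the hypothesis that the far labels are at most one, labels above a label two.
-/

set_option autoImplicit false

namespace Pool.Agent.GaussPoset.Jk

set_option linter.unusedSectionVars false

open Finset Win

universe u

variable {P : Type u} [Fintype P] [PartialOrder P] [DecidableEq P] {r i ρ : ℕ} {e f : P → ℕ}

/-- a configuration with far labels at most one is determined by its near part and its set of far
elements -/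
lemma split_one (h1 : ∀ x : P, i + ρ < lev x → e x ≤ 1) :
    nr i ρ e + ind (jun i ρ e) = e := by
  ext x
  rw [Pi.add_apply]
  unfold nr ind
  by_cases h : lev x ≤ i + ρ
  · rw [if_pos h, if_neg, add_zero]
    intro h1
    have := (mem_jun.1 h1).1
    omega
  · rw [if_neg h, zero_add]
    have h2 : e x ≤ 1 := h1 x (by omega)
    by_cases h3 : e x = 0
    · rw [if_neg, h3]
      intro h4
      exact (mem_jun.1 h4).2 h3
    · rw [if_pos (mem_jun.2 ⟨by omega, h3⟩)]
      omega

/-- THE JUNK LEMMA: configurations with excited elements below the level `i + ρ` do not contribute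
if the sums restricted by lower bounds one on the last row vanish. -/
theorem junk_low2 (H : Gr P r) {C D : Finset P} (hC : Part i C) {n m : ℕ} (hρ : 1 ≤ ρ)
    (hone : ∀ e ∈ C.piAntidiag n, tC i C e ≠ 0 → ∀ x, i + ρ < lev x → e x ≤ 1) (hDC : D ⊆ C) (hDJ : ∀ z ∈ D, lev z ≤ i + ρ)
    (hDc : ∀ e : P → ℕ, tC i C e ≠ 0 → ∑ x, e x ≤ n → ∀ z ∈ C, lev z ≤ i + ρ → e z ≠ 0 → z ∈ D)
    (hX : ∀ X : Finset P, X ⊆ C → (∀ x ∈ X, lev x = i + ρ) → X.Nonempty → ∀ n', n' < n →
      PowerSeries.coeff m (∑ f ∈ D.piAntidiag n',
        (if (∀ x ∈ X, 1 ≤ f x) then tC i C f else 0) : A) = 0) :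
    PowerSeries.coeff m (ZC i C n : A) = PowerSeries.coeff m (∑ f ∈ D.piAntidiag n, tC i C f) := by
  classical
  have S := sid_low H (P := P) i
  have hDf : ∀ {n' : ℕ} {f : P → ℕ}, f ∈ D.piAntidiag n' → ∀ x : P, i + ρ < lev x → f x = 0 := by
    intro n' f hf x hx
    exact (mem_pa'.1 hf).2 x fun h => by have := hDJ x h; omega
  unfold ZC
  -- group by the set of far elements
  have hmaps : ∀ e ∈ C.piAntidiag n, jun i ρ e ∈ (C.filter (fun x => i + ρ < lev x)).powerset := by
    intro e he
    rw [mem_powerset]
    intro x hx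
    rw [mem_jun] at hx
    rw [mem_filter]
    refine ⟨?_, hx.1⟩
    by_contra h
    exact hx.2 ((mem_pa'.1 he).2 x h)
  rw [← Finset.sum_fiberwise_of_maps_to hmaps]
  -- the fibre of `Y`
  have fib : ∀ Y ∈ (C.filter (fun x => i + ρ < lev x)).powerset,
      ∑ e ∈ (C.piAntidiag n).filter (fun e => jun i ρ e = Y), tC i C e =
      if Y.card ≤ n then ∑ f ∈ D.piAntidiag (n - Y.card), tC i C (f + ind Y) else 0 := by
    intro Y hY
    rw [mem_powerset] at hY
    have hY' : ∀ x ∈ Y, x ∈ C ∧ i + ρ < lev x := fun x hx => mem_filter.1 (hY hx)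
    split_ifs with hcard
    · have hinj : Function.Injective (fun f : P → ℕ => f + ind Y) := fun f g hfg =>
        add_right_cancel hfg
      rw [← Finset.sum_image (s := D.piAntidiag (n - Y.card)) (g := fun f : P → ℕ => f + ind Y)
        (f := fun e => tC i C e) (fun _ _ _ _ h => hinj h)]
      symm
      refine Finset.sum_subset ?_ ?_
      · intro e he
        rw [mem_image] at he
        obtain ⟨f, hf, rfl⟩ := he
        have hf2 := mem_pa'.1 hf
        rw [mem_filter, mem_pa']
        refine ⟨⟨?_, fun x hx => ?_⟩, ?_⟩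
        · simp only [Pi.add_apply, Finset.sum_add_distrib]
          rw [hf2.1, sum_ind]
          omega
        · rw [Pi.add_apply, hf2.2 x fun h => hx (hDC h)]
          unfold ind
          rw [if_neg fun h => hx (hY' x h).1]
        · ext x
          rw [mem_jun, Pi.add_apply]
          constructor
          · rintro ⟨h1, h2⟩
            rw [hDf hf x h1, zero_add] at h2
            unfold ind at h2
            by_contra h
            rw [if_neg h] at h2
            exact h2 rfl
          · intro h
            refine ⟨(hY' x h).2, ?_⟩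
            unfold ind
            rw [if_pos h]
            omega
      · intro e he hne
        by_contra hc
        rw [mem_filter] at he
        obtain ⟨he1, he2⟩ := he
        have he3 := mem_pa'.1 he1
        have hsp := split_one (ρ := ρ) (hone e he1 hc)
        rw [he2] at hsp
        refine hne (mem_image.2 ⟨nr i ρ e, ?_, hsp⟩)
        rw [mem_pa']
        constructor
        · have h1 : ∑ x, (nr i ρ e + ind Y) x = n := by rw [hsp]; exact he3.1
          simp only [Pi.add_apply, Finset.sum_add_distrib] at h1
          rw [sum_ind] at h1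
          omega
        · intro x hx
          unfold nr
          split_ifs with h
          · by_contra h1
            have hxC : x ∈ C := by
              by_contra h2
              exact h1 (he3.2 x h2)
            exact hx (hDc e hc he3.1.le x hxC h h1)
          · rfl
    · refine Finset.sum_eq_zero fun e he => ?_
      rw [mem_filter] at he
      exfalso
      have h1 : Y.card ≤ ∑ x, e x := by
        rw [← sum_ind]
        refine Finset.sum_le_sum fun x _ => ?_
        unfold ind
        split_ifs with h
        · rw [← he.2, mem_jun] at h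
          omega
        · exact Nat.zero_le _
      rw [(mem_pa'.1 he.1).1] at h1
      exact hcard h1
  rw [Finset.sum_congr rfl fib, map_sum,
    Finset.sum_eq_single_of_mem ∅ (mem_powerset.2 (Finset.empty_subset _))]
  · rw [if_pos (by simp), card_empty, Nat.sub_zero]
    congr 1
  · intro Y hY hYne
    rw [mem_powerset] at hY
    have hY' : ∀ x ∈ Y, x ∈ C ∧ i + ρ < lev x := fun x hx => mem_filter.1 (hY hx)
    have hYn : Y.Nonempty := Finset.nonempty_iff_ne_empty.2 hYne
    split_ifs with hcard
    swap
    · exact map_zero _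
    have hYc : 1 ≤ Y.card := card_pos.2 hYn
    set X : Finset P := univ.filter (fun w => lev w = i + ρ ∧ ∃ x ∈ Y, w ∈ uc x) with hXdef
    have memX : ∀ w, w ∈ X ↔ lev w = i + ρ ∧ ∃ x ∈ Y, w ∈ uc x := fun w => by
      rw [hXdef]
      simp
    by_cases hcl : ∀ x ∈ Y, ∀ w ∈ uc x, i + ρ < lev w → w ∈ Y
    · have hval : ∀ f ∈ D.piAntidiag (n - Y.card), tC i C (f + ind Y) =
          if (∀ x ∈ X, 1 ≤ f x) then tC i C f else 0 := by
        intro f hf
        split_ifs with hc
        · exact tC_ind H C (hDf hf) (fun x hx => (hY' x hx).2) hcl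
            (fun x hx w hw hl => hc w ((memX w).2 ⟨hl, x, hx, hw⟩)) hρ
        · refine tC_zero C fun hL => ?_
          push Not at hc
          obtain ⟨w, hw, h0⟩ := hc
          obtain ⟨hl, x, hx, hwx⟩ := (memX w).1 hw
          have hxl := (hY' x hx).2
          refine ind_bad S (z := x) (by omega) (by omega) ?_ ⟨w, hwx, ?_⟩ (adm_low.1 hL)
          · rw [Pi.add_apply]
            unfold ind
            rw [if_pos hx]
            omega
          · rw [Pi.add_apply]
            unfold ind
            rw [if_neg]
            · omega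
            · intro h
              have := (hY' w h).2
              omega
      rw [Finset.sum_congr rfl hval]
      refine hX X ?_ ?_ ?_ _ (by omega)
      · intro w hw
        obtain ⟨hl, x, hx, hwx⟩ := (memX w).1 hw
        exact hC.up (hY' x hx).1 (mem_uc.1 hwx)
      · intro w hw
        exact ((memX w).1 hw).1
      · obtain ⟨z, hz, hzmin⟩ := Finset.exists_min_image Y (fun x => lev x) hYn
        have hzl := (hY' z hz).2
        obtain ⟨w, hw⟩ := uc_nonempty H (x := z) (by omega)
        have hwl := lev_uc H hw
        refine ⟨w, (memX w).2 ⟨?_, z, hz, hw⟩⟩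
        by_contra h
        have h1 := hcl z hz w hw (by omega)
        have h2 := hzmin w h1
        omega
    · push Not at hcl
      obtain ⟨x, hx, w, hw, hwl, hwY⟩ := hcl
      rw [Finset.sum_eq_zero, map_zero]
      intro f hf
      refine tC_zero C fun hL => ?_
      have hxl := (hY' x hx).2
      refine ind_bad S (z := x) (by omega) (by omega) ?_ ⟨w, hw, ?_⟩ (adm_low.1 hL)
      · rw [Pi.add_apply]
        unfold ind
        rw [if_pos hx]
        omega
      · rw [Pi.add_apply, hDf hf w hwl]
        unfold ind
        rw [if_neg hwY]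


/-- a killed lower element has a large label -/
lemma lab_killed (H : Gr P r) (hA : AdmL i e) {y : P} (hy : i < lev y) (hk : FD e y) :
    lev y ≤ i + e y := by
  have S := sid_low H (P := P) i
  obtain ⟨n, hn⟩ : ∃ n, lev y - i = n + 1 := ⟨lev y - i - 1, by omega⟩
  have := (chain S (adm_low.1 hA) n y hy hn (fun h => hA y hy ⟨hk, gu_uc.1 h⟩)).1
  omega

/-- one step up from a label two -/
lemma two_up (H : Gr P r) (hA : AdmL i e) {x y : P} (hxy : x ⋖ y) (hy : i + 2 ≤ lev y)
    (hx : 2 ≤ e x) : 2 ≤ e y := by
  by_cases h : e x ≤ e y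
  · omega
  · have := lab_killed H hA (y := y) (by omega) ⟨x, hxy, by omega⟩
    omega

/-- all labels above a label two, at distance at least two, are at least two -/
theorem two_above (H : Gr P r) (hA : AdmL i e) {y : P} (hy : i + 2 ≤ lev y) :
    ∀ z, z ≤ y → 2 ≤ e z → 2 ≤ e y := by
  refine normb_induct (C := fun z => 2 ≤ e z → 2 ≤ e y) (fun h => h) ?_
  intro x z hxz hzy ih hx
  apply ih
  have h1 := lev_uc H (mem_uc.2 hxz)
  have h2 : lev y ≤ lev z := by
    rcases eq_or_lt_of_le hzy with h | h
    · rw [h]
    · exact (lev_strictAnti h).le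
  exact two_up H hA hxz (by omega) hx

/-- the price of a label two -/
theorem two_price (H : Gr P r) (hA : AdmL i e) {z : P} (hz : 2 ≤ e z) {K : Finset P}
    (hK : ∀ a ∈ K, z < a ∧ i < lev a) :
    2 + ∑ a ∈ K, (if i + 2 ≤ lev a then 2 else 1) ≤ ∑ x, e x := by
  classical
  have hzK : z ∉ K := fun h => lt_irrefl z (hK z h).1
  have h1 : ∑ x ∈ insert z K, e x ≤ ∑ x, e x :=
    Finset.sum_le_sum_of_subset (Finset.subset_univ _)
  rw [Finset.sum_insert hzK] at h1
  have h2 : ∑ a ∈ K, (if i + 2 ≤ lev a then 2 else 1) ≤ ∑ a ∈ K, e a := by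
    refine Finset.sum_le_sum fun a ha => ?_
    obtain ⟨h3, h4⟩ := hK a ha
    split_ifs with h5
    · exact two_above H hA h5 z h3.le hz
    · exact pos_above H hA h4 z h3.le (by omega)
  omega

end Pool.Agent.GaussPoset.Jk
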