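import Pool.Agent.W_448nl_h61.NlA

/-!
MP_448cb3_co, G2: near laws of the last level.  helper61.

Evaluation of the window sums of a component with arbitrary far elements, at energies for which far
labels are at most one (checked with the cones of the elements of the last row).
-/

set_option autoImplicit false

namespace Pool.Agent.GaussPoset.Win.Ev

set_option linter.unusedSectionVars false

open Finset

/-- the price of a far label two below the code `c` of the last row -/
def prc (lo hi : List ℕ) (R s c : ℕ) : ℕ :=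
  (((coneN lo hi s (R - 1 - s) [c]).dedup).map
    (fun d => bif Nat.ble (s + 2) (d / 32) then 2 else 1)).sum

/-- far labels are at most one at the energy `n` -/
def okN (lo hi : List ℕ) (R s n : ℕ) : Bool :=
  (rowN lo hi (R - 1)).all (fun a => Nat.ble (n + 1) (2 + prc lo hi R s (cd (R - 1) a)))

universe u

variable {P : Type u} [Fintype P] [PartialOrder P] [DecidableEq P] {r i j : ℕ}
variable {C : Finset P} {t : P} {lo hi : ℕ → ℕ} {x : ℕ → ℕ → P} {base c0 R s : ℕ} {los his : List ℕ}

lemma Loc.ptc_inj (Lc : Loc P r j t lo hi x C i base c0 R s los his) {c d : ℕ}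
    (hc : inR los his R (c / 32) (c % 32) = true) (hd : inR los his R (d / 32) (d % 32) = true)
    (h : ptc x base c0 c = ptc x base c0 d) : c = d := by
  obtain ⟨g1, g2, g3, g4, g5⟩ := Lc.pt_spec hc
  obtain ⟨h1, h2, h3, h4, h5⟩ := Lc.pt_spec hd
  have hj := Lc.hj
  have e1 : c / 32 = d / 32 := by
    rw [h] at g1
    omega
  unfold ptc at h
  rw [e1] at h g3 g4
  have := Lc.hc.inj' (by omega) g3 g4 h3 h4 h
  omega

/-- far labels are at most one -/
theorem Loc.far_one (Lc : Loc P r j t lo hi x C i base c0 R s los his) {p : Prog}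
    (hok : okP los his R s p = true) {n : ℕ} (hsR : s + 1 < R) (hN : okN los his R s n = true)
    {e : P → ℕ} (he : e ∈ C.piAntidiag n) (hT : tC i C e ≠ 0) {z : P} (hz : base + R ≤ lev z) :
    e z ≤ 1 := by
  classical
  by_contra h2
  have hA := (adm_of_tC hT).1
  have he2 := Jk.mem_pa'.1 he
  have hj := Lc.hj
  have hi' := Lc.hi'
  have hzC : z ∈ C := by
    by_contra h
    have := he2.2 z h
    omega
  obtain ⟨w, hzw, hwl⟩ := exists_above' (x := z) (j := base + (R - 1)) (by omega)
  have hwC : w ∈ C := by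
    refine normb_induct (C := fun z => z ∈ C → w ∈ C) (fun h => h) ?_ z hzw hzC
    intro x' z' hxz _ ih hx
    exact ih (Lc.part.up hx hxz)
  have hwt : w ≤ t := (Lc.mem w (by omega)).1 hwC
  obtain ⟨a, g1, g2, g3⟩ := Lc.hc.surj (base + (R - 1)) (by omega) w hwl hwt
  have e1 := Lc.rows.lo_eq (R - 1) (by omega)
  have e2 := Lc.rows.hi_eq (R - 1) (by omega)
  have hok' := hok
  unfold okP at hok'
  simp only [Bool.and_eq_true] at hok'
  obtain ⟨⟨⟨⟨⟨⟨⟨o1, o2⟩, o3⟩, o4⟩, o5⟩, o6⟩, o7⟩, o8⟩ := hok'
  have hcol : his.getD (R - 1) 0 ≤ 30 := by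
    have := List.all_eq_true.1 o7 _ (List.mem_range.2 (show R - 1 < R by omega))
    rwa [Nat.ble_eq] at this
  have h7 : a - c0 < 32 := by omega
  have hrow : a - c0 ∈ rowN los his (R - 1) := mem_rowN.2 ⟨by omega, by omega⟩
  obtain ⟨c, hcdef⟩ : ∃ c, c = cd (R - 1) (a - c0) := ⟨_, rfl⟩
  have hpt : ptc x base c0 c = w := by
    unfold ptc
    rw [hcdef, cd_div h7, cd_mod h7]
    have e4 : c0 + (a - c0) = a := by omega
    rw [e4, g3]
  have hin : inR los his R (c / 32) (c % 32) = true ∧ s < c / 32 := by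
    rw [hcdef, cd_div h7, cd_mod h7]
    exact ⟨inR_iff.2 ⟨by omega, by omega, by omega⟩, by omega⟩
  have hcone := Lc.cone_spec hok (R - 1 - s) [c] (fun d hd => by
    rw [List.mem_singleton] at hd
    subst hd
    exact hin)
  obtain ⟨L, hL⟩ : ∃ L, L = coneN los his s (R - 1 - s) [c] := ⟨_, rfl⟩
  rw [← hL] at hcone
  have hzw' : z < w := lt_of_le_of_ne hzw (fun h => by subst h; omega)
  have hK : ∀ b ∈ L.toFinset.image (ptc x base c0), z < b ∧ i < lev b := by
    intro b hb
    rw [mem_image] at hb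
    obtain ⟨d, hd, rfl⟩ := hb
    rw [List.mem_toFinset] at hd
    obtain ⟨k1, k2, d', hd', k3⟩ := hcone d hd
    rw [List.mem_singleton] at hd'
    subst hd'
    rw [hpt] at k3
    have := (Lc.pt_spec k1).1
    exact ⟨lt_of_lt_of_le hzw' k3, by omega⟩
  have hp := Jk.two_price Lc.h.H hA (z := z) (by omega) hK
  rw [he2.1, Finset.sum_image] at hp
  swap
  · intro d hd d' hd' heq
    rw [mem_coe, List.mem_toFinset] at hd hd'
    exact Lc.ptc_inj (hcone d hd).1 (hcone d' hd').1 heq
  have hs : ∑ d ∈ L.toFinset, (if i + 2 ≤ lev (ptc x base c0 d) then 2 else 1) =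
      (L.dedup.map (fun d => bif Nat.ble (s + 2) (d / 32) then 2 else 1)).sum := by
    have h3 : L.toFinset = L.dedup.toFinset := by
      ext d
      rw [List.mem_toFinset, List.mem_toFinset, List.mem_dedup]
    rw [h3, List.sum_toFinset _ (List.nodup_dedup L)]
    congr 1
    apply List.map_congr_left
    intro d hd
    rw [List.mem_dedup] at hd
    have h4 := (Lc.pt_spec (hcone d hd).1).1
    cases hb : Nat.ble (s + 2) (d / 32) with
    | true =>
      rw [cond_true, if_pos]
      have := Nat.le_of_ble_eq_true hb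
      omega
    | false =>
      rw [cond_false, if_neg]
      intro h5
      have h6 : Nat.ble (s + 2) (d / 32) = true := by
        rw [Nat.ble_eq]
        omega
      rw [h6] at hb
      exact Bool.noConfusion hb
  rw [hs] at hp
  unfold okN at hN
  have h8 := List.all_eq_true.1 hN _ hrow
  rw [Nat.ble_eq] at h8
  unfold prc at h8
  rw [← hcdef, ← hL] at h8
  omega

/-- EVALUATION OF THE WHOLE COMPONENT with arbitrary far elements -/
theorem Loc.eval_all2 (Lc : Loc P r j t lo hi x C i base c0 R s los his) {p : Prog}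
    (hok : okP los his R s p = true) (h0 : lb0 p = true) {m n : ℕ} (hm : m ≤ 2) (hn : n < 32)
    (hsR : s + 1 < R) (hN : okN los his R s n = true) (htop : base = 0 ∨ n ≤ s)
    (hX : okXs los his R s m n = true) :
    PowerSeries.coeff m (ZC i C n : A) = ev m p 0 n 0 0 0 := by
  classical
  have hi' := Lc.hi'
  have hJ : base + R = i + (R - 1 - s) + 1 := by omega
  rw [← Lc.eval_cut hok h0 hm hn htop hJ]
  refine Jk.junk_low2 Lc.h.H Lc.part (by omega) ?_ (fun z hz => (mem_DR.1 hz).1)
    (fun z hz => (mem_DR.1 hz).2) (fun e _ _ z hz hl _ => mem_DR.2 ⟨hz, hl⟩) ?_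
  · intro e he hT z hz
    exact Lc.far_one hok hsR hN he hT (by omega)
  intro X hXC hXl hXn n' hn'
  have h1 := Lc.zeroX (X := X) hm (by omega) (by omega) hJ hsR hX
    (fun z hz => ⟨hXC hz, hXl z hz⟩) hXn hn'
  rw [← h1]

/-- the second order coefficient of a component -/
theorem Loc.be_all2 (Lc : Loc P r j t lo hi x C i base c0 R s los his) {p : Prog}
    (hok : okP los his R s p = true) (h0 : lb0 p = true) {b n : ℕ} (hb : 2 ≤ b) (hb' : b ≤ 4)
    (hn : n < 32) (hsR : s + 1 < R) (hN : okN los his R s n = true) (htop : base = 0 ∨ n ≤ s)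
    (hX : okXs los his R s (b - 2) n = true) :
    I2.be n b (ZS i C) = ev (b - 2) p 0 n 0 0 0 := by
  rw [be_eq hb]
  exact Lc.eval_all2 hok h0 (by omega) hn hsR hN htop hX

/-- the first order coefficient of a component -/
theorem Loc.al_all2 (Lc : Loc P r j t lo hi x C i base c0 R s los his) {p : Prog}
    (hok : okP los his R s p = true) (h0 : lb0 p = true) {b n : ℕ} (hb : 1 ≤ b) (hb' : b ≤ 3)
    (hn : n < 32) (hsR : s + 1 < R) (hN : okN los his R s n = true) (htop : base = 0 ∨ n ≤ s)
    (hX : okXs los his R s (b - 1) n = true) :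
    I2.al n b (ZS i C) = ev (b - 1) p 0 n 0 0 0 := by
  rw [al_eq hb]
  exact Lc.eval_all2 hok h0 (by omega) hn hsR hN htop hX

lemma prc_test : okN [0, 0, 0, 0, 0, 0, 1, 2, 2, 3, 3, 3, 4, 5] [0, 0, 0, 0, 1, 1, 2, 3, 4, 4, 4, 4, 5, 5] 14 8 17 = true := by
  decide +kernel

end Pool.Agent.GaussPoset.Win.Ev
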