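import Pool.Agent.W_448nl_h61.NlB
import Pool.Agent.W_448nl_h15.NlM
import Pool.Agent.W_448e7_h24.EsA

/-!
MP_448cb3_co, G2: near laws of the last level, the values of `E7` at the window 8 for `j = 12`
(`E = 5`), from the rows down to level 12.  helper61.
-/

set_option autoImplicit false

namespace Pool.Agent.GaussPoset.Nl

set_option linter.unusedSectionVars false

open Finset Win St Polynomial Wd Win.I2 Win.Ev

universe u

section values

set_option maxRecDepth 100000

/-- left ends of the rows of `E7` -/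
def L12 : List ℕ := [0, 0, 0, 0, 0, 0, 1, 2, 2, 3, 3, 3, 4]

/-- right ends of the rows of `E7` -/
def H12 : List ℕ := [0, 0, 0, 0, 1, 1, 2, 3, 4, 4, 4, 4, 5]

theorem E7r_ok : okP L12 H12 13 8 (mk L12 H12 13 8) = true ∧ lb0 (mk L12 H12 13 8) = true := by
  constructor <;> decide +kernel

theorem E7r_N : okN L12 H12 13 8 9 = true ∧ okN L12 H12 13 8 10 = true := by
  constructor <;> decide +kernel

theorem E7r_X : okXs L12 H12 13 8 1 10 = true := by decide +kernel

theorem E7r_9 : Ev.ev 1 (mk L12 H12 13 8) 0 9 0 0 0 = 0 := by decide +kernel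

theorem E7r_10 : Ev.ev 1 (mk L12 H12 13 8) 0 10 0 0 0 = 0 := by decide +kernel

end values

variable {P : Type u} [Fintype P] [PartialOrder P] [DecidableEq P] {r j : ℕ}

/-- THE VALUES FOR `j = 12`, `E = 5` -/
theorem NJ.l3v_12 (V : EV P r) (h : NJ P r 12) : L3V P 12 5 := by
  intro a t lo hi e C D ha h3 h5 m h7 hm
  obtain rfl := h5 rfl
  have hw : word lo hi 4 8 = E7.take 8 := by
    rcases D.h4 with ⟨h4, -⟩ | h4
    · omega
    · have hl : (word lo hi 4 (12 - 4)).length = 8 := by
        unfold word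
        rw [List.length_map, List.length_range]
      have key : ∀ w ∈ lateW 4, w.length = 8 → w = E7.take 8 := by decide
      exact key _ h4 hl
  have hE : E7c 12 lo hi := ⟨D.h2, D.h3, Or.inl hw⟩
  show be m 3 (ZS 8 (SS 8 t)) = 0
  rcases Nat.lt_or_ge m 9 with h9 | h9
  · exact V.be_E7 h.g C (by omega) (by omega) hE m (by omega) (by omega) (by omega)
  have L : Loc P r 12 (t : P) lo hi (fun k s => e k s) (SS 8 t) 8 0 0 13 8 L12 H12 :=
    loc_trunk (x := fun k s => e k s) (w := E7.take 8) h.g t.2 C.toWin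
      (SS_part h.g (by omega) (by omega) t) (fun z hz => (SS_ext h.g (by omega) t).mem z hz)
      (by show 4 + 8 ≤ 12; omega) hw D.h2 D.h3.1 D.h3.2 rfl (by omega) (by decide)
  have X9 := Ev.okXs_mono (N' := 9) E7r_X (by omega)
  have e1 := L.be_all2 (b := 3) (n := 9) E7r_ok.1 E7r_ok.2 (by omega) (by omega) (by omega)
    (by omega) E7r_N.1 (Or.inl rfl) X9
  have e2 := L.be_all2 (b := 3) (n := 10) E7r_ok.1 E7r_ok.2 (by omega) (by omega) (by omega)
    (by omega) E7r_N.2 (Or.inl rfl) E7r_X
  obtain rfl | rfl : m = 9 ∨ m = 10 := by omega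
  · exact e1.trans E7r_9
  · exact e2.trans E7r_10

end Pool.Agent.GaussPoset.Nl
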